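import Pool.Agent.H737R3.Cont.Lam

/-!
A factorisation from a logarithmic derivative identity, derivatives and powers of ideals.
-/

set_option autoImplicit false
set_option linter.unusedSectionVars false

universe u

namespace Pool.Agent.H737R3.Cont

open MvPolynomial Pool.Agent.Chud Pool.Agent.H580C Pool.Agent.H737R3

section

variable {k : Type u} [Field k] {p : ℕ} [Fact p.Prime] [CharP k p] [PerfectRing k p] {N : ℕ}

theorem factor {F φ : MvPolynomial (Fin N) k} {a : ℕ} (ha : a ≤ p) (hF : F ≠ 0)
    (hφ : φ ≠ 0) (hdeg : φ.totalDegree < p)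
    (h : ∀ i, F * pderiv i φ = C (a : k) * pderiv i F * φ) :
    ∃ (u : MvPolynomial (Fin N) k) (c : k), c ≠ 0 ∧ u ^ p * φ = C (c ^ p) * F ^ a := by
  have hp := (Fact.out : p.Prime)
  have hX : ∀ i, pderiv i (φ * F ^ (p - a)) = 0 := by
    intro i
    have h1 : F * pderiv i (φ * F ^ (p - a)) = 0 := by
      rw [Derivation.leibniz, smul_eq_mul, smul_eq_mul, pderiv_pow]
      have h2 : F * (φ * (((p - a : ℕ) : MvPolynomial (Fin N) k) * F ^ (p - a - 1) * pderiv i F) +
          F ^ (p - a) * pderiv i φ) =
          ((p - a : ℕ) : MvPolynomial (Fin N) k) * (F * F ^ (p - a - 1)) * (φ * pderiv i F) +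
          F ^ (p - a) * (F * pderiv i φ) := by ring
      rw [h2, h i]
      rcases Nat.eq_zero_or_pos (p - a) with h0 | h0
      · have h3 : a = p := by omega
        rw [h0, h3, show ((p : ℕ) : k) = 0 from CharP.cast_eq_zero k p]
        simp
      · rw [← pow_succ', Nat.sub_add_cancel h0]
        have h4 : ((p - a : ℕ) : MvPolynomial (Fin N) k) + C (a : k) = 0 := by
          rw [map_natCast, ← Nat.cast_add, Nat.sub_add_cancel ha, CharP.cast_eq_zero]
        have h5 : ((p - a : ℕ) : MvPolynomial (Fin N) k) * F ^ (p - a) * (φ * pderiv i F) +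
            F ^ (p - a) * (C (a : k) * pderiv i F * φ) =
            (((p - a : ℕ) : MvPolynomial (Fin N) k) + C (a : k)) *
              (F ^ (p - a) * (φ * pderiv i F)) := by ring
        rw [h5, h4, zero_mul]
    exact (mul_eq_zero.1 h1).resolve_left hF
  have hY := eq_pow_of_pderiv (p := p) _ hX
  set Y := cmp p 0 (φ * F ^ (p - a)) with hYdef
  have h1 : F ^ p * φ = Y ^ p * F ^ a := by
    rw [← hY, mul_assoc, ← pow_add, Nat.sub_add_cancel ha, mul_comm]
  obtain ⟨u, v, g, huv, hu, hv⟩ := UniqueFactorizationMonoid.exists_reduced_factors F hF Y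
  have hg : g ≠ 0 := by
    rintro rfl
    apply hF
    rw [← hu, zero_mul]
  have h2 : u ^ p * φ = v ^ p * F ^ a := by
    apply mul_left_cancel₀ (pow_ne_zero p hg)
    calc g ^ p * (u ^ p * φ) = (g * u) ^ p * φ := by rw [mul_pow]; ring
      _ = (g * v) ^ p * F ^ a := by rw [hu, hv]; exact h1
      _ = g ^ p * (v ^ p * F ^ a) := by rw [mul_pow]; ring
  have h3 : v ^ p ∣ φ := by
    apply IsRelPrime.dvd_of_dvd_mul_left (x := v ^ p) (y := u ^ p) huv.symm.pow
    exact ⟨F ^ a, h2⟩
  obtain ⟨m, hm⟩ := h3
  have hm0 : m ≠ 0 := by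
    rintro rfl
    exact hφ (by rw [hm, mul_zero])
  have hv0 : v ≠ 0 := by
    rintro rfl
    apply hφ
    rw [hm, zero_pow hp.ne_zero, zero_mul]
  have h4 : φ.totalDegree = p * v.totalDegree + m.totalDegree := by
    rw [hm, totalDegree_mul_of_isDomain (pow_ne_zero _ hv0) hm0]
    congr 1
    clear_value Y
    clear hY h1 hv h2 hm h
    have key : ∀ j : ℕ, (v ^ j).totalDegree = j * v.totalDegree := by
      intro j
      induction j with
      | zero => simp
      | succ j ih =>
        rw [pow_succ, totalDegree_mul_of_isDomain (pow_ne_zero _ hv0) hv0, ih]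
        ring
    exact key p
  have h5 : v.totalDegree = 0 := by
    by_contra hne
    have : p * 1 ≤ p * v.totalDegree := Nat.mul_le_mul_left _ (Nat.one_le_iff_ne_zero.2 hne)
    omega
  have h6 := totalDegree_eq_zero_iff_eq_C.1 h5
  refine ⟨u, coeff 0 v, ?_, ?_⟩
  · intro h7
    apply hv0
    rw [h6, h7, map_zero]
  · rw [h2, h6, map_pow]
    simp

/-- derivatives and powers of ideals -/
theorem pderiv_mem_pow {I : Ideal (MvPolynomial (Fin N) k)} (i : Fin N) (m : ℕ) :
    ∀ f ∈ I ^ (m + 1), pderiv i f ∈ I ^ m := by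
  induction m with
  | zero =>
    intro f _
    rw [pow_zero, Ideal.one_eq_top]
    exact Submodule.mem_top
  | succ m ih =>
    intro f hf
    rw [pow_succ] at hf
    refine Submodule.mul_induction_on hf ?_ ?_
    · intro a ha b hb
      rw [Derivation.leibniz, smul_eq_mul, smul_eq_mul]
      apply Ideal.add_mem
      · exact Ideal.mul_mem_right _ _ ha
      · rw [mul_comm, pow_succ]
        exact Ideal.mul_mem_mul (ih a ha) hb
    · intro a b ha hb
      rw [map_add]
      exact Ideal.add_mem _ ha hb

theorem homogeneousComponent_X_mul (i : Fin N) (l : ℕ) (f : MvPolynomial (Fin N) k) :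
    homogeneousComponent (l + 1) (X i * f) = X i * homogeneousComponent l f := by
  classical
  ext c
  rw [coeff_homogeneousComponent, coeff_X_mul', coeff_X_mul']
  by_cases hi : i ∈ c.support
  · rw [if_pos hi, if_pos hi, coeff_homogeneousComponent]
    have h1 : Finsupp.single i 1 ≤ c := by
      rw [Finsupp.single_le_iff]
      exact Nat.one_le_iff_ne_zero.2 (Finsupp.mem_support_iff.1 hi)
    have h2 : (c - Finsupp.single i 1).degree + 1 = c.degree := by
      conv_rhs => rw [← tsub_add_cancel_of_le h1]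
      rw [map_add, Finsupp.degree_single]
    by_cases h3 : c.degree = l + 1
    · rw [if_pos h3, if_pos (by omega)]
    · rw [if_neg h3, if_neg (by omega)]
  · rw [if_neg hi, if_neg hi]
    split_ifs <;> rfl

end

end Pool.Agent.H737R3.Cont
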