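import Pool.Agent.H737R3.Cont.Comp

/-!
Large powers of the ideal of a point lie in Frobenius powers.
-/

set_option autoImplicit false
set_option linter.unusedSectionVars false

universe u

namespace Pool.Agent.H737R3.Cont

open MvPolynomial Pool.Agent.Chud Pool.Agent.H580C Pool.Agent.H737R3

section

variable {k : Type u} [Field k] {p : ℕ} [Fact p.Prime] [CharP k p] [PerfectRing k p] {n : ℕ}

theorem mem_fro_span {F : MvPolynomial (Fin (n + 1)) k} {d m e : ℕ} (hF : F.IsHomogeneous d)
    (h : ∀ c ∈ F.support, c 0 + m ≤ d) (he : p * (e + n) < m + p + n) :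
    F ∈ fro p ((Ideal.span (Set.range (fun i : Fin n =>
      (X i.succ : MvPolynomial (Fin (n + 1)) k)))) ^ e) := by
  classical
  have hp : 0 < p := (Fact.out : p.Prime).pos
  rw [F.as_sum]
  apply Ideal.sum_mem
  intro c hc
  rw [monomial_eq, Finsupp.prod_fintype _ _ (by simp), Fin.prod_univ_succ]
  apply Ideal.mul_mem_left
  apply Ideal.mul_mem_left
  have h0 : ∏ i : Fin n, (X i.succ : MvPolynomial (Fin (n + 1)) k) ^ c i.succ =
      (∏ i : Fin n, (X i.succ : MvPolynomial (Fin (n + 1)) k) ^ (c i.succ / p)) ^ p *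
        ∏ i : Fin n, (X i.succ : MvPolynomial (Fin (n + 1)) k) ^ (c i.succ % p) := by
    rw [← Finset.prod_pow, ← Finset.prod_mul_distrib]
    apply Finset.prod_congr rfl
    intro i _
    rw [← pow_mul, ← pow_add, Nat.div_add_mod' (c i.succ) p]
  rw [h0]
  apply Ideal.mul_mem_right
  apply pow_mem_fro
  have h1 : ∏ i : Fin n, (X i.succ : MvPolynomial (Fin (n + 1)) k) ^ (c i.succ / p) ∈
      ∏ i : Fin n, (Ideal.span (Set.range (fun i : Fin n =>
        (X i.succ : MvPolynomial (Fin (n + 1)) k)))) ^ (c i.succ / p) := by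
    apply Ideal.prod_mem_prod
    intro i _
    exact Ideal.pow_mem_pow (Ideal.subset_span (Set.mem_range_self i)) _
  rw [Finset.prod_pow_eq_pow_sum] at h1
  refine Ideal.pow_le_pow_right ?_ h1
  have h2 := h c hc
  have h3 : c.degree = d := by
    have := hF (mem_support_iff.1 hc)
    rwa [Finsupp.degree_eq_weight_one]
  rw [Finsupp.degree_eq_sum, Fin.sum_univ_succ] at h3
  have h4 : ∑ i : Fin n, c i.succ + n ≤ p * ∑ i : Fin n, c i.succ / p + n * p := by
    have h5 : ∑ i : Fin n, (c i.succ + 1) ≤ ∑ i : Fin n, (p * (c i.succ / p) + p) := by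
      apply Finset.sum_le_sum
      intro i _
      have h6 := Nat.div_add_mod (c i.succ) p
      have h7 := Nat.mod_lt (c i.succ) hp
      omega
    rw [Finset.sum_add_distrib, Finset.sum_add_distrib, ← Finset.mul_sum] at h5
    simpa using h5
  by_contra hcon
  push Not at hcon
  have h5 : p * (∑ i : Fin n, c i.succ / p + 1) ≤ p * e := Nat.mul_le_mul_left _ hcon
  rw [mul_add] at h5 he
  have h6 : p * n = n * p := mul_comm _ _
  omega

theorem map_fro {A : MvPolynomial (Fin (n + 1)) k →ₐ[k] MvPolynomial (Fin (n + 1)) k}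
    (I : Ideal (MvPolynomial (Fin (n + 1)) k)) :
    Ideal.map A.toRingHom (fro p I) = fro p (Ideal.map A.toRingHom I) := by
  unfold fro
  rw [Ideal.map_map, Ideal.map_map]
  congr 1
  ext x
  · simp [frobenius_def]
  · simp [frobenius_def]

/-- a form of high order at a point lies in a Frobenius power -/
theorem mem_fro_linI {F : MvPolynomial (Fin (n + 1)) k} {d m e : ℕ} (hF : F.IsHomogeneous d)
    {q : Fin (n + 1) → k} (hq : q ≠ 0) (h : F ∈ mI q ^ m) (he : p * (e + n) < m + p + n) :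
    F ∈ fro p (linI q ^ e) := by
  obtain ⟨g, hg⟩ := t_CE k n q hq
  have hs := t_SU k (n + 1) g
  have hr := t_SU k (n + 1) g.symm
  obtain ⟨-, s2, -, s4, -, s6⟩ := hs
  obtain ⟨-, r2, r3, -, -, -⟩ := hr
  have h1 : sub g F ∈ mI (e0 k n) ^ m := by
    rw [s4, hg]
    exact h
  have h2 := (t_OE k n d m (sub g F) (s2 F d hF)).1 h1
  have h3 := mem_fro_span (p := p) (s2 F d hF) h2 he
  have h4 : (sub g.symm) (sub g F) ∈ Ideal.map (sub g.symm).toRingHom
      (fro p ((Ideal.span (Set.range (fun i : Fin n =>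
        (X i.succ : MvPolynomial (Fin (n + 1)) k)))) ^ e)) := Ideal.mem_map_of_mem _ h3
  rw [s6, map_fro, Ideal.map_pow, Ideal.map_span] at h4
  refine fro_mono (Ideal.pow_right_mono ?_ e) h4
  rw [Ideal.span_le]
  rintro _ ⟨_, ⟨i, rfl⟩, rfl⟩
  apply Ideal.subset_span
  refine ⟨r2 _ 1 (isHomogeneous_X k _), ?_⟩
  change eval q (sub g.symm (X i.succ)) = 0
  rw [r3, eval_X, ← hg, LinearEquiv.symm_apply_apply]
  simp [e0]

end

end Pool.Agent.H737R3.Cont
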