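import Pool.Agent.H737R3.Cont.Stmts
import Pool.Agent.H737R3.Cont.Factor
import Pool.Agent.H737R3.Cont.LinFro

/-!
The containment in large characteristic.
-/

set_option autoImplicit false
set_option linter.unusedSectionVars false

universe u

namespace Pool.Agent.H737R3.Cont

open MvPolynomial Pool.Agent.Chud Pool.Agent.H580C Pool.Agent.H737R3

section

variable {k : Type u} [Field k]

theorem mu_C {N : ℕ} (v : Fin N → k) {c : k} (hc : c ≠ 0) :
    mu v (C c : MvPolynomial (Fin N) k) = 0 := by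
  have h0 : (C c : MvPolynomial (Fin N) k) ≠ 0 := by
    intro h
    rw [← map_zero C] at h
    exact hc (C_injective _ _ h)
  have := mu_le_totalDegree v h0
  rw [totalDegree_C] at this
  omega

theorem mem_lowI {n s : ℕ} {P : Fin s → Fin (n + 1) → k} {w : Fin s → ℕ} {ν l : ℕ}
    {f : MvPolynomial (Fin (n + 1)) k} (hl : l < ν) (hf : f.IsHomogeneous l)
    (h : ∀ i, f ∈ linI (P i) ^ w i) : f ∈ lowI P w ν := by
  apply Ideal.subset_span
  exact ⟨l, hl, hf, fun i => Ideal.pow_right_mono (linI_le_mI (P i)) _ (h i)⟩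

/-- the components of `F ^ a` lie in `lowI` -/
theorem core (p : ℕ) [Fact p.Prime] [CharP k p] [PerfectRing k p] (n s t d ν ρ a b' : ℕ)
    (P : Fin s → Fin (n + 1) → k) (w : Fin s → ℕ) (F : MvPolynomial (Fin (n + 1)) k)
    (hn : 2 ≤ n) (_hs : 0 < s) (ht : 0 < t) (hp2 : 2 * t * (d + 1) < p) (hP : ∀ i, P i ≠ 0)
    (hFd : F.IsHomogeneous d) (hF0 : F ≠ 0)
    (hFm : ∀ i, F ∈ mI (P i) ^ (t * (w i + n - 1)))
    (hν : 1 ≤ ν) (hd : d = t * ν + ρ) (hρ : ρ < t) (hab : t * a = p + b') (hb' : b' < t) :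
    ∀ b : Fin (n + 1) →₀ ℕ, (∀ i, b i < p) → cmp p b (F ^ a) ∈ lowI P w ν := by
  classical
  have hp := (Fact.out : p.Prime)
  -- numerics
  obtain ⟨j, hj⟩ : ∃ j, d * a = p * ν + j := by
    refine ⟨d * a - p * ν, ?_⟩
    have h1 : t * (p * ν) ≤ t * (d * a) := by
      calc t * (p * ν) ≤ (p + b') * (t * ν) := by
            have : (p + b') * (t * ν) = t * (p * ν) + b' * (t * ν) := by ring
            omega
        _ ≤ (p + b') * d := Nat.mul_le_mul_left _ (by omega)
        _ = t * (d * a) := by rw [← hab]; ring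
    have h2 := Nat.le_of_mul_le_mul_left h1 ht
    omega
  have htj : t * j = b' * d + p * ρ := by
    have h1 : t * (d * a) = (p + b') * d := by rw [← hab]; ring
    rw [hj] at h1
    have h2 : t * (p * ν + j) = p * (t * ν) + t * j := by ring
    have h3 : (p + b') * d = p * (t * ν) + p * ρ + b' * d := by rw [hd]; ring
    omega
  have hjp : j + d ≤ p := by
    have h1 : t * (j + d) < t * (p + 1) := by
      have h2 : t * (j + d) = b' * d + p * ρ + t * d := by rw [mul_add, htj]
      have h3 : b' * d ≤ t * d := Nat.mul_le_mul_right _ hb'.le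
      have h4 : p * (ρ + 1) ≤ p * t := Nat.mul_le_mul_left _ hρ
      have h5 : 2 * t * (d + 1) = 2 * (t * d) + 2 * t := by ring
      have h6 : p * (ρ + 1) = p * ρ + p := by ring
      have h7 : t * (p + 1) = p * t + t := by ring
      omega
    have := Nat.lt_of_mul_lt_mul_left h1
    omega
  have hd1 : 1 ≤ d := by
    have : t * 1 ≤ t * ν := Nat.mul_le_mul_left _ hν
    omega
  have hjp' : j < p := by omega
  have hap : a ≤ p := by
    by_contra hcon
    push Not at hcon
    have h1 : t * (p + 1) ≤ t * a := Nat.mul_le_mul_left _ hcon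
    have h2 : t * (p + 1) = t * p + t := by ring
    have h3 : 1 * p ≤ t * p := Nat.mul_le_mul_right _ ht
    omega
  have ha1 : 1 ≤ a := by
    rcases Nat.eq_zero_or_pos a with h | h
    · exfalso
      rw [h, mul_zero] at hab
      have := hp.pos
      omega
    · exact h
  have hνp : ν < p := by
    have h1 : 1 * ν ≤ t * ν := Nat.mul_le_mul_right _ ht
    have h2 : 1 * (d + 1) ≤ 2 * t * (d + 1) := Nat.mul_le_mul_right _ (by omega)
    omega
  set G := F ^ a with hG
  have hGd : G.IsHomogeneous (d * a) := hFd.pow a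
  have hG0 : G ≠ 0 := pow_ne_zero _ hF0
  -- the components lie in the ideal
  set I : Ideal (MvPolynomial (Fin (n + 1)) k) := ⨅ i, linI (P i) ^ w i with hI
  have memI : ∀ f, f ∈ I ↔ ∀ i, f ∈ linI (P i) ^ w i := by
    intro f
    rw [hI, Submodule.mem_iInf]
  have hcomp : ∀ b : Fin (n + 1) →₀ ℕ, (∀ i, b i < p) → cmp p b G ∈ I := by
    intro b hb
    rw [memI]
    intro i
    apply cmp_mem_of_fro _ hb
    have h1 : G ∈ mI (P i) ^ (t * (w i + n - 1) * a) := by
      rw [pow_mul]
      exact Ideal.pow_mem_pow (hFm i) a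
    apply mem_fro_linI hGd (hP i) h1
    have h2 : p * (w i + n - 1) ≤ t * (w i + n - 1) * a := by
      have h3 : t * (w i + n - 1) * a = (p + b') * (w i + n - 1) := by rw [← hab]; ring
      rw [h3]
      exact Nat.mul_le_mul_right _ (by omega)
    have h3 : p * (w i + n) = p * (w i + n - 1) + p := by
      obtain ⟨x, hx⟩ : ∃ x, w i + n = x + 1 := ⟨w i + n - 1, by omega⟩
      rw [hx, Nat.add_sub_cancel]
      ring
    omega
  intro b hb
  by_cases hb0 : cmp p b G = 0
  · rw [hb0]
    exact Ideal.zero_mem _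
  obtain ⟨l, hl, hlh⟩ := cmp_homog' hb hGd hb0
  have hlν : l ≤ ν := by
    by_contra hcon
    push Not at hcon
    have h1 : p * (ν + 1) ≤ p * l := Nat.mul_le_mul_left _ hcon
    have h2 : p * (ν + 1) = p * ν + p := by ring
    omega
  rcases Nat.lt_or_ge l ν with hlt | hge
  · exact mem_lowI hlt hlh ((memI _).1 (hcomp b hb))
  have hlν' : l = ν := le_antisymm hlν hge
  subst hlν'
  by_contra hnot
  -- a functional
  obtain ⟨L0, hL0, hL0'⟩ := Submodule.exists_dual_map_eq_bot_of_notMem
    (p := (lowI P w l).restrictScalars k) (x := cmp p b G) hnot inferInstance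
  have hL0'' : ∀ f ∈ lowI P w l, L0 f = 0 := by
    intro f hf
    have h1 : L0 f ∈ Submodule.map L0 ((lowI P w l).restrictScalars k) := ⟨f, hf, rfl⟩
    rw [hL0'] at h1
    exact (Submodule.mem_bot k).1 h1
  set L : MvPolynomial (Fin (n + 1)) k →ₗ[k] k := L0.comp (homogeneousComponent l) with hL
  have hLν : ∀ (f : MvPolynomial (Fin (n + 1)) k) (l' : ℕ), f.IsHomogeneous l' → l' ≠ l →
      L f = 0 := by
    intro f l' hf hne
    rw [hL, LinearMap.comp_apply,
      homogeneousComponent_of_mem ((mem_homogeneousSubmodule _ _).2 hf), if_neg (Ne.symm hne),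
      map_zero]
  have hLl : ∀ (f : MvPolynomial (Fin (n + 1)) k), f.IsHomogeneous l → L f = L0 f := by
    intro f hf
    rw [hL, LinearMap.comp_apply,
      homogeneousComponent_of_mem ((mem_homogeneousSubmodule _ _).2 hf), if_pos rfl]
  have hLI : ∀ f ∈ I, ∀ i, L (X i * f) = 0 := by
    intro f hf i
    obtain ⟨l', rfl⟩ : ∃ l', l = l' + 1 := ⟨l - 1, by omega⟩
    rw [hL, LinearMap.comp_apply, homogeneousComponent_X_mul]
    apply hL0''
    apply Ideal.mul_mem_left
    apply mem_lowI (Nat.lt_succ_self l') (homogeneousComponent_isHomogeneous l' f)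
    intro i'
    exact component_mem (P i') (w i') ((memI _).1 hf i') l'
  have hLG : L (cmp p b G) ≠ 0 := by
    rw [hLl _ hlh]
    exact hL0
  set φ := lam p L G with hφ
  have hφh : φ.IsHomogeneous j := lam_homog hLν hGd hj
  have hφb : coeff b φ ≠ 0 := by
    rw [hφ, coeff_lam _ _ hb]
    exact pow_ne_zero _ hLG
  have hφ0 : φ ≠ 0 := by
    intro h
    rw [h, coeff_zero] at hφb
    exact hφb rfl
  have hφd : φ.totalDegree < p := by
    rw [hφh.totalDegree hφ0]
    exact hjp'
  -- the logarithmic derivative identity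
  have hkey : ∀ i, F * pderiv i φ = C (a : k) * pderiv i F * φ := by
    intro i
    ext c
    by_cases hc : ∀ i', c i' < p
    · rw [hφ, ← lam_pderiv, lam_mul hLI _ _ (cmp_pderiv_mem hcomp i) hc,
        lam_mul hLI _ _ hcomp hc]
      congr 3
      rw [hG, pderiv_pow]
      have h1 : F * (((a : ℕ) : MvPolynomial (Fin (n + 1)) k) * F ^ (a - 1) * pderiv i F) =
          ((a : ℕ) : MvPolynomial (Fin (n + 1)) k) * (F * F ^ (a - 1)) * pderiv i F := by ring
      rw [h1, ← pow_succ', Nat.sub_add_cancel ha1, map_natCast]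
      ring
    · have hlarge : p ≤ c.degree := by
        push Not at hc
        obtain ⟨i', hi'⟩ := hc
        exact hi'.trans (Finsupp.le_degree i' c)
      have h1 : (F * pderiv i φ).IsHomogeneous (d + (j - 1)) := hFd.mul hφh.pderiv
      have h2 : (C (a : k) * pderiv i F * φ).IsHomogeneous ((d - 1) + j) := by
        have h3 := ((isHomogeneous_C (Fin (n + 1)) (a : k)).mul
          (hFd.pderiv (i := i))).mul hφh
        rwa [zero_add] at h3
      by_cases hj0 : j = 0
      · -- then both vanish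
        have h4 : pderiv i φ = 0 := by
          subst hj0
          have h5 := totalDegree_eq_zero_iff_eq_C.1
            (Nat.le_zero.1 (hφh.totalDegree_le))
          rw [h5, pderiv_C]
        rw [h4, mul_zero, coeff_zero, h2.coeff_eq_zero (by omega)]
      · rw [h1.coeff_eq_zero (by omega), h2.coeff_eq_zero (by omega)]
  obtain ⟨u, c, hc, huc⟩ := factor hap hF0 hφ0 hφd hkey
  set g := cmp p b G with hg
  -- `u` is a multiple of `g`
  set r := ifr p (coeff b φ) with hr
  have hr0 : r ≠ 0 := by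
    intro h
    apply hφb
    rw [← ifr_pow p (coeff b φ), ← hr, h, zero_pow hp.ne_zero]
  have hug : u * C r = C c * g := by
    have h1 : cmp p b (u ^ p * φ) = u * C r := by rw [cmp_pow_mul hb, cmp_of_small hb hφd]
    have h2 : cmp p b ((C c) ^ p * F ^ a) = C c * g := by rw [cmp_pow_mul hb, hg, hG]
    rw [← h1, ← h2, huc, map_pow]
  have hu : u = C (c / r) * g := by
    have h1 : C (c / r) * g = C r⁻¹ * (C c * g) := by
      rw [← mul_assoc, ← map_mul, div_eq_mul_inv, mul_comm c]
    rw [h1, ← hug, mul_comm u, ← mul_assoc, ← map_mul, inv_mul_cancel₀ hr0, map_one, one_mul]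
  have hg0 : g ≠ 0 := hb0
  have hcr : c / r ≠ 0 := div_ne_zero hc hr0
  have hCne : ∀ x : k, x ≠ 0 → (C x : MvPolynomial (Fin (n + 1)) k) ≠ 0 := by
    intro x hx h
    rw [← map_zero C] at h
    exact hx (C_injective _ _ h)
  have hmug : ∀ i, w i + n - 1 ≤ mu (P i) g := by
    intro i
    have h1 : mu (P i) (u ^ p * φ) = p * mu (P i) g + mu (P i) φ := by
      have hu0 : u ≠ 0 := by
        rw [hu]
        exact mul_ne_zero (hCne _ hcr) hg0
      rw [mu_mul _ (pow_ne_zero _ hu0) hφ0, BL_mu_pow _ hu0, hu,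
        mu_mul _ (hCne _ hcr) hg0, mu_C _ hcr, zero_add]
    have h2 : mu (P i) (C (c ^ p) * F ^ a) = a * mu (P i) F := by
      rw [mu_mul _ (hCne _ (pow_ne_zero _ hc)) (pow_ne_zero _ hF0), BL_mu_pow _ hF0,
        mu_C _ (pow_ne_zero _ hc), zero_add]
    rw [huc, h2] at h1
    have h3 : mu (P i) φ ≤ j := by
      have := mu_le_totalDegree (P i) hφ0
      rwa [hφh.totalDegree hφ0] at this
    have h4 := (mem_mI_pow_iff (P i) hF0 _).1 (hFm i)
    have h5 : a * (t * (w i + n - 1)) ≤ a * mu (P i) F := Nat.mul_le_mul_left _ h4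
    have h6 : a * (t * (w i + n - 1)) = (p + b') * (w i + n - 1) := by rw [← hab]; ring
    have h7 : p * (w i + n - 1) ≤ (p + b') * (w i + n - 1) := Nat.mul_le_mul_right _ (by omega)
    have h8 : p * (w i + n - 1) < p * (mu (P i) g + 1) := by
      have : p * (mu (P i) g + 1) = p * mu (P i) g + p := by ring
      omega
    have := Nat.lt_of_mul_lt_mul_left h8
    omega
  -- Euler
  have hgI : ∀ i', pderiv i' g ∈ I := by
    intro i'
    rw [memI]
    intro i
    have h1 : g ∈ linI (P i) ^ (w i + n - 1) :=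
      mem_linI_pow hlh (hP i) ((mem_mI_pow_iff (P i) hg0 _).2 (hmug i))
    have h2 : g ∈ linI (P i) ^ ((w i + n - 2) + 1) := by
      rwa [show (w i + n - 2) + 1 = w i + n - 1 by omega]
    exact Ideal.pow_le_pow_right (by omega) (pderiv_mem_pow i' _ g h2)
  have hE := hlh.sum_X_mul_pderiv
  have h1 : L (l • g) = 0 := by
    rw [← hE, map_sum]
    apply Finset.sum_eq_zero
    intro i' _
    exact hLI _ (hgI i') i'
  rw [map_nsmul, nsmul_eq_mul] at h1
  rcases mul_eq_zero.1 h1 with h2 | h2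
  · rw [CharP.cast_eq_zero_iff k p] at h2
    exact absurd (Nat.le_of_dvd hν h2) (by omega)
  · exact hLG h2

/-- the containment in large characteristic -/
theorem contP (p n s t d : ℕ) [Fact p.Prime] [CharP k p] [PerfectRing k p]
    (P : Fin s → Fin (n + 1) → k) (w : Fin s → ℕ) (F : MvPolynomial (Fin (n + 1)) k)
    (hn : 2 ≤ n) (hs : 0 < s) (ht : 0 < t) (hp2 : 2 * t * (d + 1) < p) (hP : ∀ i, P i ≠ 0)
    (hFd : F.IsHomogeneous d) (hFm : ∀ i, F ∈ mI (P i) ^ (t * (w i + n - 1))) :
    F ∈ lowI P w (d / t) ^ t := by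
  classical
  have hp := (Fact.out : p.Prime)
  by_cases hF0 : F = 0
  · rw [hF0]
    exact Ideal.zero_mem _
  have hdt := Nat.div_add_mod d t
  have hmt := Nat.mod_lt d ht
  have hν : 1 ≤ d / t := by
    by_contra hcon
    have h0 : d / t = 0 := Nat.lt_one_iff.1 (not_le.1 hcon)
    rw [h0, mul_zero, zero_add] at hdt
    have h1 := (mem_mI_pow_iff (P ⟨0, hs⟩) hF0 _).1 (hFm ⟨0, hs⟩)
    have h2 := mu_le_totalDegree (P ⟨0, hs⟩) hF0
    rw [hFd.totalDegree hF0] at h2
    have h3 : t * 1 ≤ t * (w ⟨0, hs⟩ + n - 1) := Nat.mul_le_mul_left _ (by omega)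
    omega
  set a := (p + t - 1) / t with ha
  have h1 : t * a + (p + t - 1) % t = p + t - 1 := Nat.div_add_mod (p + t - 1) t
  have h2 := Nat.mod_lt (p + t - 1) ht
  have h0 : p + t - 1 + 1 = p + t := by omega
  generalize (p + t - 1) % t = x at h1 h2
  generalize p + t - 1 = y at h1 h0
  generalize hta : t * a = z at h1
  obtain ⟨b', hb'⟩ : ∃ b', t * a = p + b' := ⟨z - p, by omega⟩
  have hbt : b' < t := by omega
  have hc := core p n s t d (d / t) (d % t) a b' P w F hn hs ht hp2 hP hFd hF0 hFm hν hdt.symm hmt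
    hb' hbt
  have h3 : F ^ a ∈ fro p (lowI P w (d / t)) := fro_of_cmp_mem hc
  have h4 : (F ^ a) ^ t ∈ fro p (lowI P w (d / t) ^ t) := by
    rw [← fro_pow]
    exact Ideal.pow_mem_pow h3 t
  rw [← pow_mul, mul_comm a t, hb', pow_add] at h4
  have hFb : F ^ b' ≠ 0 := pow_ne_zero _ hF0
  have hFbh : (F ^ b').IsHomogeneous (d * b') := hFd.pow b'
  have hdb : d * b' < p := by
    have h5 : d * b' ≤ d * t := Nat.mul_le_mul_left _ hbt.le
    have h6 : 2 * t * (d + 1) = 2 * (d * t) + 2 * t := by ring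
    omega
  obtain ⟨β, hβ⟩ := MvPolynomial.ne_zero_iff.1 hFb
  have hβp : ∀ i, β i < p := by
    intro i
    have h5 : β.degree = d * b' := by
      have := hFbh hβ
      rwa [Finsupp.degree_eq_weight_one]
    have h6 := Finsupp.le_degree i β
    omega
  have h5 := cmp_mem_of_fro h4 hβp
  rw [cmp_pow_mul hβp, cmp_of_small hβp (by rw [hFbh.totalDegree hFb]; exact hdb)] at h5
  have hr0 : ifr p (coeff β (F ^ b')) ≠ 0 := by
    intro h
    apply hβ
    rw [← ifr_pow p (coeff β (F ^ b')), h, zero_pow hp.ne_zero]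
  have h6 := Ideal.mul_mem_right (C (ifr p (coeff β (F ^ b')))⁻¹) _ h5
  rwa [mul_assoc, ← map_mul, mul_inv_cancel₀ hr0, map_one, mul_one] at h6

end

theorem charP : CharPStmt := by
  intro k _ _ p n s t d _ _ P w F hn hs ht hp2 hP hFd hFm
  exact contP p n s t d P w F hn hs ht hp2 hP hFd hFm

end Pool.Agent.H737R3.Cont
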