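import Pool.Agent.H737R3.Bridge

/-!
Components of polynomials over perfect fields of characteristic `p` with respect to the basis
`x ^ b`, `b i < p`, over the subring of `p`-th powers.
-/

set_option autoImplicit false
set_option linter.unusedSectionVars false

universe u

namespace Pool.Agent.H737R3.Cont

open MvPolynomial Pool.Agent.Chud Pool.Agent.H580C Pool.Agent.H737R3

section comp

variable {k : Type u} [Field k] (p : ℕ) [Fact p.Prime] [CharP k p] [PerfectRing k p] {N : ℕ}

/-- quotient of a multi-index -/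
noncomputable def dv (c : Fin N →₀ ℕ) : Fin N →₀ ℕ := c.mapRange (· / p) (Nat.zero_div p)

/-- remainder of a multi-index -/
noncomputable def md (c : Fin N →₀ ℕ) : Fin N →₀ ℕ := c.mapRange (· % p) (Nat.zero_mod p)

theorem dv_apply (c : Fin N →₀ ℕ) (i : Fin N) : dv p c i = c i / p := by simp [dv]

theorem md_apply (c : Fin N →₀ ℕ) (i : Fin N) : md p c i = c i % p := by simp [md]

theorem dv_md (c : Fin N →₀ ℕ) : p • dv p c + md p c = c := by
  ext i
  simp only [Finsupp.add_apply, Finsupp.smul_apply, smul_eq_mul, dv_apply, md_apply]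
  exact Nat.div_add_mod _ _

theorem dv_eq {b u : Fin N →₀ ℕ} (hb : ∀ i, b i < p) : dv p (p • u + b) = u := by
  have hp : 0 < p := (Fact.out : p.Prime).pos
  ext i
  simp only [Finsupp.add_apply, Finsupp.smul_apply, smul_eq_mul, dv_apply]
  rw [Nat.mul_add_div hp, Nat.div_eq_of_lt (hb i), add_zero]

theorem md_eq {b u : Fin N →₀ ℕ} (hb : ∀ i, b i < p) : md p (p • u + b) = b := by
  ext i
  simp only [Finsupp.add_apply, Finsupp.smul_apply, smul_eq_mul, md_apply]
  rw [Nat.mul_add_mod, Nat.mod_eq_of_lt (hb i)]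

theorem md_lt (c : Fin N →₀ ℕ) (i : Fin N) : md p c i < p := by
  rw [md_apply]
  exact Nat.mod_lt _ (Fact.out : p.Prime).pos

/-- the inverse of the Frobenius map -/
noncomputable abbrev ifr (x : k) : k := (frobeniusEquiv k p).symm x

theorem ifr_pow (x : k) : (ifr p x) ^ p = x := by
  have := (frobeniusEquiv k p).apply_symm_apply x
  rwa [frobeniusEquiv_apply, frobenius_def] at this

theorem ifr_of_pow (x : k) : ifr p (x ^ p) = x := by
  have := (frobeniusEquiv k p).symm_apply_apply x
  rwa [frobeniusEquiv_apply, frobenius_def] at this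

theorem ifr_pow_mul (x y : k) : ifr p (x ^ p * y) = x * ifr p y := by
  have h : ifr p (x ^ p * y) = ifr p (x ^ p) * ifr p y := map_mul _ _ _
  rw [h, ifr_of_pow]

theorem ifr_natCast (n : ℕ) : ifr p (n : k) = n := map_natCast _ _

/-- the `b`-component -/
noncomputable def cmp (b : Fin N →₀ ℕ) (G : MvPolynomial (Fin N) k) : MvPolynomial (Fin N) k :=
  ∑ c ∈ G.support, if md p c = b then monomial (dv p c) (ifr p (coeff c G)) else 0

variable {p}

theorem coeff_cmp {b : Fin N →₀ ℕ} (hb : ∀ i, b i < p) (u : Fin N →₀ ℕ)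
    (G : MvPolynomial (Fin N) k) : coeff u (cmp p b G) = ifr p (coeff (p • u + b) G) := by
  classical
  unfold cmp
  rw [coeff_sum, Finset.sum_eq_single (p • u + b)]
  · rw [if_pos (md_eq p hb), coeff_monomial, if_pos (dv_eq p hb)]
  · intro c _ hc
    by_cases h1 : md p c = b
    · rw [if_pos h1, coeff_monomial, if_neg]
      intro h2
      apply hc
      rw [← dv_md p c, h1, h2]
    · rw [if_neg h1, coeff_zero]
  · intro h
    rw [notMem_support_iff] at h
    rw [if_pos (md_eq p hb), h]
    simp

theorem cmp_add {b : Fin N →₀ ℕ} (hb : ∀ i, b i < p) (G H : MvPolynomial (Fin N) k) :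
    cmp p b (G + H) = cmp p b G + cmp p b H := by
  ext u
  rw [coeff_cmp hb, coeff_add, coeff_add, coeff_cmp hb, coeff_cmp hb]
  exact map_add _ _ _

theorem cmp_zero {b : Fin N →₀ ℕ} (hb : ∀ i, b i < p) :
    cmp p b (0 : MvPolynomial (Fin N) k) = 0 := by
  ext u
  rw [coeff_cmp hb, coeff_zero, coeff_zero]
  exact map_zero _

theorem cmp_sum {ι : Type*} {b : Fin N →₀ ℕ} (hb : ∀ i, b i < p) (s : Finset ι)
    (f : ι → MvPolynomial (Fin N) k) : cmp p b (∑ i ∈ s, f i) = ∑ i ∈ s, cmp p b (f i) := by
  classical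
  induction s using Finset.induction_on with
  | empty => simp [cmp_zero hb]
  | insert a s ha ih => rw [Finset.sum_insert ha, Finset.sum_insert ha, cmp_add hb, ih]

theorem cmp_pow_mul {b : Fin N →₀ ℕ} (hb : ∀ i, b i < p) (a h : MvPolynomial (Fin N) k) :
    cmp p b (a ^ p * h) = a * cmp p b h := by
  have hp : 0 < p := (Fact.out : p.Prime).pos
  induction a using MvPolynomial.induction_on' with
  | add a a' ha ha' => rw [add_pow_char, add_mul, cmp_add hb, ha, ha', add_mul]
  | monomial u r =>
    ext v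
    rw [coeff_cmp hb, monomial_pow, coeff_monomial_mul', coeff_monomial_mul']
    by_cases huv : u ≤ v
    · rw [if_pos huv, if_pos]
      · rw [coeff_cmp hb, ifr_pow_mul]
        congr 3
        ext i
        simp only [Finsupp.add_apply, Finsupp.smul_apply, smul_eq_mul, Finsupp.tsub_apply]
        have h1 := huv i
        have h2 : p * u i ≤ p * v i := Nat.mul_le_mul_left _ h1
        rw [Nat.mul_sub]
        omega
      · intro i
        simp only [Finsupp.add_apply, Finsupp.smul_apply, smul_eq_mul]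
        have h2 : p * u i ≤ p * v i := Nat.mul_le_mul_left _ (huv i)
        omega
    · rw [if_neg huv, if_neg]
      · exact map_zero _
      · intro h
        apply huv
        intro i
        have h1 := h i
        simp only [Finsupp.add_apply, Finsupp.smul_apply, smul_eq_mul] at h1
        have h2 := hb i
        by_contra hcon
        have h3 : p * (v i + 1) ≤ p * u i := Nat.mul_le_mul_left _ (by omega)
        have h4 : p * (v i + 1) = p * v i + p := by ring
        omega

/-- multi-indices with entries `< p` -/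
noncomputable def tf (f : Fin N → Fin p) : Fin N →₀ ℕ :=
  Finsupp.equivFunOnFinite.symm (fun i => (f i : ℕ))

theorem tf_apply (f : Fin N → Fin p) (i : Fin N) : tf f i = f i := rfl

theorem tf_lt (f : Fin N → Fin p) (i : Fin N) : tf f i < p := (f i).2

theorem exists_tf {b : Fin N →₀ ℕ} (hb : ∀ i, b i < p) : ∃ f : Fin N → Fin p, tf f = b := by
  refine ⟨fun i => ⟨b i, hb i⟩, ?_⟩
  ext i
  rfl

theorem tf_inj : Function.Injective (tf : (Fin N → Fin p) → (Fin N →₀ ℕ)) := by
  intro f g h
  funext i
  have := DFunLike.congr_fun h i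
  rw [tf_apply, tf_apply] at this
  exact Fin.ext this

theorem cmp_monomial {b : Fin N →₀ ℕ} (hb : ∀ i, b i < p) (c : Fin N →₀ ℕ) (r : k) :
    cmp p b (monomial c r) = if md p c = b then monomial (dv p c) (ifr p r) else 0 := by
  classical
  ext u
  rw [coeff_cmp hb, coeff_monomial]
  by_cases h : md p c = b
  · rw [if_pos h, coeff_monomial]
    by_cases h2 : dv p c = u
    · rw [if_pos h2, if_pos]
      rw [← h, ← h2, dv_md]
    · rw [if_neg h2, if_neg]
      · exact map_zero _
      · intro h3
        apply h2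
        rw [h3, dv_eq p hb]
  · rw [if_neg h, coeff_zero, if_neg]
    · exact map_zero _
    · intro h3
      apply h
      rw [h3, md_eq p hb]

theorem cmp_decomp (G : MvPolynomial (Fin N) k) :
    G = ∑ f : Fin N → Fin p, (cmp p (tf f) G) ^ p * monomial (tf f) 1 := by
  classical
  induction G using MvPolynomial.induction_on' with
  | add a a' ha ha' =>
    conv_lhs => rw [ha, ha']
    rw [← Finset.sum_add_distrib]
    apply Finset.sum_congr rfl
    intro f _
    rw [cmp_add (tf_lt f), add_pow_char, add_mul]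
  | monomial c r =>
    obtain ⟨g, hg⟩ := exists_tf (md_lt p c)
    rw [Finset.sum_eq_single g]
    · rw [cmp_monomial (tf_lt g), if_pos hg.symm, monomial_pow, monomial_mul, ifr_pow, mul_one, hg,
        dv_md]
    · intro f _ hf
      rw [cmp_monomial (tf_lt f), if_neg, zero_pow (Fact.out : p.Prime).ne_zero, zero_mul]
      intro h
      apply hf
      apply tf_inj
      rw [← h, hg]
    · intro h
      exact absurd (Finset.mem_univ g) h

/-- Frobenius power of an ideal -/
noncomputable def fro (p : ℕ) [Fact p.Prime] [CharP k p] (I : Ideal (MvPolynomial (Fin N) k)) :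
    Ideal (MvPolynomial (Fin N) k) :=
  Ideal.map (frobenius (MvPolynomial (Fin N) k) p) I

theorem cmp_mem_of_fro {I : Ideal (MvPolynomial (Fin N) k)} {G : MvPolynomial (Fin N) k}
    (hG : G ∈ fro p I) {b : Fin N →₀ ℕ} (hb : ∀ i, b i < p) : cmp p b G ∈ I := by
  unfold fro Ideal.map at hG
  have key : ∀ h, cmp p b (h * G) ∈ I := by
    refine Submodule.span_induction (p := fun x _ => ∀ h, cmp p b (h * x) ∈ I) ?_ ?_ ?_ ?_ hG
    · rintro _ ⟨a, ha, rfl⟩ h
      rw [frobenius_def, mul_comm, cmp_pow_mul hb]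
      exact Ideal.mul_mem_right _ _ ha
    · intro h
      rw [mul_zero, cmp_zero hb]
      exact I.zero_mem
    · intro x y _ _ hx hy h
      rw [mul_add, cmp_add hb]
      exact I.add_mem (hx h) (hy h)
    · intro a x _ hx h
      rw [smul_eq_mul, ← mul_assoc]
      exact hx (h * a)
  simpa using key 1

theorem fro_of_cmp_mem {I : Ideal (MvPolynomial (Fin N) k)} {G : MvPolynomial (Fin N) k}
    (h : ∀ b : Fin N →₀ ℕ, (∀ i, b i < p) → cmp p b G ∈ I) : G ∈ fro p I := by
  rw [cmp_decomp (p := p) G]
  apply Ideal.sum_mem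
  intro f _
  apply Ideal.mul_mem_right
  have := Ideal.mem_map_of_mem (frobenius (MvPolynomial (Fin N) k) p) (h (tf f) (tf_lt f))
  rwa [frobenius_def] at this

theorem fro_pow (I : Ideal (MvPolynomial (Fin N) k)) (t : ℕ) : (fro p I) ^ t = fro p (I ^ t) := by
  unfold fro
  rw [Ideal.map_pow]

theorem fro_mono {I J : Ideal (MvPolynomial (Fin N) k)} (h : I ≤ J) : fro p I ≤ fro p J :=
  Ideal.map_mono h

theorem pow_mem_fro {I : Ideal (MvPolynomial (Fin N) k)} {a : MvPolynomial (Fin N) k}
    (h : a ∈ I) : a ^ p ∈ fro p I := by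
  have := Ideal.mem_map_of_mem (frobenius (MvPolynomial (Fin N) k) p) h
  rwa [frobenius_def] at this

/-- degrees of components -/
theorem cmp_degree {b : Fin N →₀ ℕ} (hb : ∀ i, b i < p) {G : MvPolynomial (Fin N) k} {D : ℕ}
    (hG : G.IsHomogeneous D) {u : Fin N →₀ ℕ} (hu : coeff u (cmp p b G) ≠ 0) :
    p * u.degree + b.degree = D := by
  rw [coeff_cmp hb] at hu
  have h1 : coeff (p • u + b) G ≠ 0 := by
    intro h
    apply hu
    rw [h]
    exact map_zero _
  have h2 := hG h1
  have h3 : (p • u + b).degree = D := by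
    rw [Finsupp.degree_eq_weight_one]
    exact h2
  rw [map_add, map_nsmul, smul_eq_mul] at h3
  exact h3

theorem cmp_homog {b : Fin N →₀ ℕ} (hb : ∀ i, b i < p) {G : MvPolynomial (Fin N) k} {D l : ℕ}
    (hG : G.IsHomogeneous D) (hl : p * l + b.degree = D) : (cmp p b G).IsHomogeneous l := by
  intro u hu
  have h1 := cmp_degree hb hG hu
  have hp : 0 < p := (Fact.out : p.Prime).pos
  have h2 : p * u.degree = p * l := by omega
  have h3 := Nat.eq_of_mul_eq_mul_left hp h2
  have h4 : u.degree = l := h3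
  rw [Finsupp.degree_eq_weight_one] at h4
  exact h4

theorem cmp_homog' {b : Fin N →₀ ℕ} (hb : ∀ i, b i < p) {G : MvPolynomial (Fin N) k} {D : ℕ}
    (hG : G.IsHomogeneous D) (h0 : cmp p b G ≠ 0) :
    ∃ l, p * l + b.degree = D ∧ (cmp p b G).IsHomogeneous l := by
  obtain ⟨u, hu⟩ := MvPolynomial.ne_zero_iff.1 h0
  have h1 := cmp_degree hb hG hu
  exact ⟨u.degree, h1, cmp_homog hb hG h1⟩

/-- components of polynomials of small degree -/
theorem cmp_of_small {b : Fin N →₀ ℕ} (hb : ∀ i, b i < p) {G : MvPolynomial (Fin N) k}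
    (hG : G.totalDegree < p) : cmp p b G = C (ifr p (coeff b G)) := by
  classical
  ext u
  rw [coeff_cmp hb, coeff_C]
  by_cases hu : u = 0
  · subst hu
    simp
  · rw [if_neg (Ne.symm hu)]
    have : coeff (p • u + b) G = 0 := by
      apply coeff_eq_zero_of_totalDegree_lt
      refine hG.trans_le ?_
      have h1 : (p • u + b).degree = p * u.degree + b.degree := by
        rw [map_add, map_nsmul, smul_eq_mul]
      have h2 : 1 ≤ u.degree := by
        rw [Nat.one_le_iff_ne_zero]
        intro h
        apply hu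
        exact (Finsupp.degree_eq_zero_iff u).1 h
      have h3 : p * 1 ≤ p * u.degree := Nat.mul_le_mul_left _ h2
      have h4 : ∑ i ∈ (p • u + b).support, (p • u + b) i = (p • u + b).degree := rfl
      rw [h4, h1]
      omega
    rw [this]
    exact map_zero _

/-- components of derivatives -/
theorem cmp_pderiv {b : Fin N →₀ ℕ} {i : Fin N} (hb : ∀ i, b i < p)
    (hb' : ∀ j, (b + Finsupp.single i 1 : Fin N →₀ ℕ) j < p) (G : MvPolynomial (Fin N) k) :
    cmp p b (pderiv i G) = C ((b i : k) + 1) * cmp p (b + Finsupp.single i 1) G := by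
  ext u
  rw [coeff_cmp hb, coeff_pderiv, coeff_C_mul, coeff_cmp hb']
  have h1 : p • u + b + Finsupp.single i 1 = p • u + (b + Finsupp.single i 1) := add_assoc _ _ _
  have h2 : (((p • u + b) i : ℕ) : k) + 1 = ((b i + 1 : ℕ) : k) := by
    simp [Finsupp.add_apply, Finsupp.smul_apply]
  rw [h1, h2]
  have h3 : ifr p (coeff (p • u + (b + Finsupp.single i 1)) G * ((b i + 1 : ℕ) : k)) =
      ifr p (coeff (p • u + (b + Finsupp.single i 1)) G) * ifr p ((b i + 1 : ℕ) : k) :=
    map_mul _ _ _
  rw [h3, ifr_natCast]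
  push_cast
  ring

theorem cmp_pderiv_zero {b : Fin N →₀ ℕ} {i : Fin N} (hb : ∀ i, b i < p)
    (hb' : b i + 1 = p) (G : MvPolynomial (Fin N) k) :
    cmp p b (pderiv i G) = 0 := by
  ext u
  rw [coeff_cmp hb, coeff_pderiv]
  have h2 : (((p • u + b) i : ℕ) : k) + 1 = 0 := by
    have : (((p • u + b) i : ℕ) : k) + 1 = ((p * u i + (b i + 1) : ℕ) : k) := by
      simp [Finsupp.add_apply, Finsupp.smul_apply]
    rw [this, hb']
    simp
  rw [h2, mul_zero, coeff_zero]
  exact map_zero _

end comp

end Pool.Agent.H737R3.Cont
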