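import Pool.Agent.H737R3.Cont.Comp

/-!
Functionals on Frobenius powers of ideals.
-/

set_option autoImplicit false
set_option linter.unusedSectionVars false

universe u

namespace Pool.Agent.H737R3.Cont

open MvPolynomial Pool.Agent.Chud Pool.Agent.H580C Pool.Agent.H737R3

section lam

variable {k : Type u} [Field k] {p : ℕ} [Fact p.Prime] [CharP k p] [PerfectRing k p] {N : ℕ}

/-- the polynomial of the values of a functional on the components -/
noncomputable def lam (p : ℕ) [Fact p.Prime] [CharP k p] [PerfectRing k p]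
    (L : MvPolynomial (Fin N) k →ₗ[k] k) (G : MvPolynomial (Fin N) k) :
    MvPolynomial (Fin N) k :=
  ∑ f : Fin N → Fin p, monomial (tf f) (L (cmp p (tf f) G) ^ p)

theorem coeff_lam (L : MvPolynomial (Fin N) k →ₗ[k] k) (G : MvPolynomial (Fin N) k)
    {c : Fin N →₀ ℕ} (hc : ∀ i, c i < p) : coeff c (lam p L G) = L (cmp p c G) ^ p := by
  classical
  obtain ⟨g, hg⟩ := exists_tf hc
  unfold lam
  rw [coeff_sum, Finset.sum_eq_single g]
  · rw [coeff_monomial, if_pos hg, hg]
  · intro f _ hf
    rw [coeff_monomial, if_neg]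
    intro h
    apply hf
    apply tf_inj
    rw [h, hg]
  · intro h
    exact absurd (Finset.mem_univ g) h

theorem coeff_lam_zero (L : MvPolynomial (Fin N) k →ₗ[k] k) (G : MvPolynomial (Fin N) k)
    {c : Fin N →₀ ℕ} (hc : ¬ ∀ i, c i < p) : coeff c (lam p L G) = 0 := by
  classical
  unfold lam
  rw [coeff_sum]
  apply Finset.sum_eq_zero
  intro f _
  rw [coeff_monomial, if_neg]
  intro h
  apply hc
  intro i
  rw [← h]
  exact tf_lt f i

theorem L_mul {L : MvPolynomial (Fin N) k →ₗ[k] k} {I : Ideal (MvPolynomial (Fin N) k)}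
    (hL : ∀ f ∈ I, ∀ i, L (X i * f) = 0) (s : MvPolynomial (Fin N) k) :
    ∀ f ∈ I, L (s * f) = coeff 0 s * L f := by
  induction s using MvPolynomial.induction_on with
  | C a =>
    intro f _
    rw [C_mul', map_smul, coeff_C, if_pos rfl, smul_eq_mul]
  | add s s' hs hs' =>
    intro f hf
    rw [add_mul, map_add, hs f hf, hs' f hf, coeff_add, add_mul]
  | mul_X s i _ =>
    intro f hf
    have h1 : s * X i * f = X i * (s * f) := by ring
    rw [h1, hL _ (I.mul_mem_left s hf) i]
    have h2 : coeff 0 (s * X i) = 0 := by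
      rw [coeff_mul_X', if_neg (by simp)]
    rw [h2, zero_mul]

theorem lam_mul {L : MvPolynomial (Fin N) k →ₗ[k] k} {I : Ideal (MvPolynomial (Fin N) k)}
    (hL : ∀ f ∈ I, ∀ i, L (X i * f) = 0) (s G : MvPolynomial (Fin N) k)
    (hG : ∀ b : Fin N →₀ ℕ, (∀ i, b i < p) → cmp p b G ∈ I) {c : Fin N →₀ ℕ}
    (hc : ∀ i, c i < p) : coeff c (s * lam p L G) = L (cmp p c (s * G)) ^ p := by
  classical
  have h1 : cmp p c (s * G) =
      ∑ f : Fin N → Fin p, cmp p c (s * monomial (tf f) 1) * cmp p (tf f) G := by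
    conv_lhs => rw [cmp_decomp (p := p) G]
    rw [Finset.mul_sum, cmp_sum hc]
    apply Finset.sum_congr rfl
    intro f _
    rw [mul_left_comm, cmp_pow_mul hc, mul_comm]
  rw [h1, map_sum, sum_pow_char]
  unfold lam
  rw [Finset.mul_sum, coeff_sum]
  apply Finset.sum_congr rfl
  intro f _
  rw [L_mul hL _ _ (hG _ (tf_lt f)), mul_pow, coeff_cmp hc, smul_zero, zero_add, ifr_pow]
  have h2 : (monomial (tf f) (L (cmp p (tf f) G) ^ p) : MvPolynomial (Fin N) k) =
      C (L (cmp p (tf f) G) ^ p) * monomial (tf f) 1 := by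
    rw [C_mul_monomial, mul_one]
  rw [h2, mul_left_comm, coeff_C_mul, mul_comm]

theorem lam_pderiv (L : MvPolynomial (Fin N) k →ₗ[k] k) (G : MvPolynomial (Fin N) k)
    (i : Fin N) : lam p L (pderiv i G) = pderiv i (lam p L G) := by
  ext c
  rw [coeff_pderiv]
  by_cases hc : ∀ j, c j < p
  · rw [coeff_lam _ _ hc]
    by_cases hc' : c i + 1 < p
    · have h1 : ∀ j, (c + Finsupp.single i 1 : Fin N →₀ ℕ) j < p := by
        intro j
        rw [Finsupp.add_apply]
        by_cases hij : i = j
        · subst hij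
          rw [Finsupp.single_eq_same]
          exact hc'
        · rw [Finsupp.single_eq_of_ne (Ne.symm hij), add_zero]
          exact hc j
      rw [coeff_lam _ _ h1, cmp_pderiv hc h1, C_mul', map_smul, smul_eq_mul, mul_pow, mul_comm]
      congr 1
      have h2 : ((c i : k) + 1) = ((c i + 1 : ℕ) : k) := by push_cast; rfl
      rw [h2, ← frobenius_def, map_natCast]
    · have h1 : c i + 1 = p := by
        have := hc i
        omega
      rw [cmp_pderiv_zero hc h1, map_zero, zero_pow (Fact.out : p.Prime).ne_zero]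
      have h2 : ((c i : k) + 1) = ((c i + 1 : ℕ) : k) := by push_cast; rfl
      rw [h2, h1, CharP.cast_eq_zero, mul_zero]
  · rw [coeff_lam_zero _ _ hc, coeff_lam_zero, zero_mul]
    intro h
    apply hc
    intro j
    refine lt_of_le_of_lt ?_ (h j)
    rw [Finsupp.add_apply]
    omega

theorem cmp_pderiv_mem {I : Ideal (MvPolynomial (Fin N) k)} {G : MvPolynomial (Fin N) k}
    (hG : ∀ b : Fin N →₀ ℕ, (∀ i, b i < p) → cmp p b G ∈ I) (i : Fin N) (b : Fin N →₀ ℕ)
    (hb : ∀ i, b i < p) : cmp p b (pderiv i G) ∈ I := by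
  by_cases hc' : b i + 1 < p
  · have h1 : ∀ j, (b + Finsupp.single i 1 : Fin N →₀ ℕ) j < p := by
      intro j
      rw [Finsupp.add_apply]
      by_cases hij : i = j
      · subst hij
        rw [Finsupp.single_eq_same]
        exact hc'
      · rw [Finsupp.single_eq_of_ne (Ne.symm hij), add_zero]
        exact hb j
    rw [cmp_pderiv hb h1]
    exact I.mul_mem_left _ (hG _ h1)
  · have h1 : b i + 1 = p := by
      have := hb i
      omega
    rw [cmp_pderiv_zero hb h1]
    exact I.zero_mem

theorem lam_homog {L : MvPolynomial (Fin N) k →ₗ[k] k} {ν j D : ℕ}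
    (hLν : ∀ (f : MvPolynomial (Fin N) k) (l : ℕ), f.IsHomogeneous l → l ≠ ν → L f = 0)
    {G : MvPolynomial (Fin N) k} (hG : G.IsHomogeneous D) (hD : D = p * ν + j) :
    (lam p L G).IsHomogeneous j := by
  intro c hc
  by_cases hc' : ∀ i, c i < p
  · rw [coeff_lam _ _ hc'] at hc
    have h1 : L (cmp p c G) ≠ 0 := fun h => hc (by rw [h, zero_pow (Fact.out : p.Prime).ne_zero])
    have h2 : cmp p c G ≠ 0 := fun h => h1 (by rw [h, map_zero])
    obtain ⟨l, hl, hl'⟩ := cmp_homog' hc' hG h2
    have h3 : l = ν := by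
      by_contra hne
      exact h1 (hLν _ l hl' hne)
    subst h3
    have h4 : c.degree = j := by omega
    rw [Finsupp.degree_eq_weight_one] at h4
    exact h4
  · exact absurd (coeff_lam_zero L G hc') hc

/-- a polynomial all of whose derivatives vanish is a `p`-th power -/
theorem eq_pow_of_pderiv (G : MvPolynomial (Fin N) k) (h : ∀ i, pderiv i G = 0) :
    G = (cmp p 0 G) ^ p := by
  classical
  have hp : 0 < p := (Fact.out : p.Prime).pos
  have h0 : ∀ i : Fin N, (0 : Fin N →₀ ℕ) i < p := fun i => hp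
  have key : ∀ b : Fin N →₀ ℕ, (∀ i, b i < p) → b ≠ 0 → cmp p b G = 0 := by
    intro b hb hb0
    obtain ⟨i, hi⟩ : ∃ i, b i ≠ 0 := by
      by_contra hcon
      push Not at hcon
      exact hb0 (Finsupp.ext hcon)
    obtain ⟨b', hb'⟩ : ∃ b' : Fin N →₀ ℕ, b' + Finsupp.single i 1 = b := by
      refine ⟨b - Finsupp.single i 1, ?_⟩
      apply tsub_add_cancel_of_le
      rw [Finsupp.single_le_iff]
      omega
    subst hb'
    have h1 : ∀ j, b' j < p := by
      intro j
      refine lt_of_le_of_lt ?_ (hb j)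
      rw [Finsupp.add_apply]
      omega
    have h2 := cmp_pderiv h1 hb G
    rw [h i, cmp_zero h1] at h2
    have h3 := mul_eq_zero.1 h2.symm
    rcases h3 with h3 | h3
    · exfalso
      rw [← map_zero C] at h3
      have h4 := C_injective _ _ h3
      have h5 : ((b' i : k) + 1) = ((b' i + 1 : ℕ) : k) := by push_cast; rfl
      rw [h5, CharP.cast_eq_zero_iff k p] at h4
      have h6 := hb i
      rw [Finsupp.add_apply, Finsupp.single_eq_same] at h6
      exact absurd (Nat.le_of_dvd (by omega) h4) (by omega)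
    · exact h3
  obtain ⟨g, hg⟩ := exists_tf h0
  conv_lhs => rw [cmp_decomp (p := p) G]
  rw [Finset.sum_eq_single g]
  · rw [hg, monomial_zero', C_1, mul_one]
  · intro f _ hf
    rw [key _ (tf_lt f), zero_pow (Fact.out : p.Prime).ne_zero, zero_mul]
    intro h
    apply hf
    apply tf_inj
    rw [h, hg]
  · intro h
    exact absurd (Finset.mem_univ g) h

end lam

end Pool.Agent.H737R3.Cont
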