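import Pool.Agent.H737R3.Cont.CharP
import Pool.Agent.H595R3.ContT1
import Pool.Agent.H915R3.ContT2

/-!
Containment of symbolic powers of ideals of points in characteristic zero.
-/

set_option autoImplicit false

universe u

namespace Pool.Agent.H737R3.Cont

open MvPolynomial Pool.Agent.Chud Pool.Agent.H580C Pool.Agent.H737R3

theorem charZero : CharZeroStmt.{u} := Pool.Agent.H595R3.ContT1.taskT1 charP

section

variable {K : Type u} [Field K] [CharZero K]

/-- homogeneous version, with generators of degree `< d / t` -/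
theorem cont_low {n s t d : ℕ} (hn : 2 ≤ n) (hs : 0 < s) (ht : 0 < t)
    (P : Fin s → Fin (n + 1) → K) (hP : ∀ i, P i ≠ 0) (w : Fin s → ℕ)
    {F : MvPolynomial (Fin (n + 1)) K} (hF : F.IsHomogeneous d)
    (h : ∀ i, F ∈ linI (P i) ^ (t * (w i + n - 1))) : F ∈ lowI P w (d / t) ^ t :=
  charZero K n s t d P w F hn hs ht hP hF fun i =>
    Ideal.pow_right_mono (linI_le_mI (P i)) _ (h i)

theorem cont {n s t : ℕ} (hn : 2 ≤ n) (hs : 0 < s) (ht : 0 < t)
    (P : Fin s → Fin (n + 1) → K) (hP : ∀ i, P i ≠ 0) (w : Fin s → ℕ) :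
    (⨅ i, linI (P i) ^ (t * (w i + n - 1))) ≤
      irr K n ^ t * (⨅ i, linI (P i) ^ w i) ^ t := by
  intro F hF
  rw [Submodule.mem_iInf] at hF
  rw [← sum_homogeneousComponent F]
  apply Ideal.sum_mem
  intro d _
  apply Pool.Agent.H915R3.ContT2.taskT2 K n s t d P w _ ht hP
    (homogeneousComponent_isHomogeneous d F)
  exact cont_low hn hs ht P hP w (homogeneousComponent_isHomogeneous d F)
    fun i => component_mem (P i) _ (hF i) d

end

end Pool.Agent.H737R3.Cont
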