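import Pool.Agent.H737R3.Bridge

/-!
Containment of symbolic powers of ideals of points: definitions and the statements of the steps.
-/

set_option autoImplicit false

universe u

namespace Pool.Agent.H737R3.Cont

open MvPolynomial Pool.Agent.Chud Pool.Agent.H580C Pool.Agent.H737R3

/-- the irrelevant ideal -/
noncomputable def irr (k : Type u) [Field k] (n : ℕ) : Ideal (MvPolynomial (Fin (n + 1)) k) :=
  Ideal.span (Set.range (fun j : Fin (n + 1) => (X j : MvPolynomial (Fin (n + 1)) k)))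

/-- the ideal generated by the forms of degree `< ν` which vanish to order at least `w i` at `P i`
for all `i` -/
noncomputable def lowI {k : Type u} [Field k] {n s : ℕ} (P : Fin s → Fin (n + 1) → k)
    (w : Fin s → ℕ) (ν : ℕ) : Ideal (MvPolynomial (Fin (n + 1)) k) :=
  Ideal.span {f | ∃ l, l < ν ∧ f.IsHomogeneous l ∧ ∀ i, f ∈ mI (P i) ^ w i}

/-- the containment in large characteristic -/
def CharPStmt : Prop := ∀ (k : Type) [Field k] [IsAlgClosed k] (p n s t d : ℕ) [Fact p.Prime]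
  [CharP k p] (P : Fin s → Fin (n + 1) → k) (w : Fin s → ℕ) (F : MvPolynomial (Fin (n + 1)) k),
  2 ≤ n → 0 < s → 0 < t → 2 * t * (d + 1) < p → (∀ i, P i ≠ 0) → F.IsHomogeneous d →
  (∀ i, F ∈ mI (P i) ^ (t * (w i + n - 1))) → F ∈ lowI P w (d / t) ^ t

/-- the containment in characteristic zero -/
def CharZeroStmt : Prop := ∀ (K : Type u) [Field K] [CharZero K] (n s t d : ℕ)
  (P : Fin s → Fin (n + 1) → K) (w : Fin s → ℕ) (F : MvPolynomial (Fin (n + 1)) K),
  2 ≤ n → 0 < s → 0 < t → (∀ i, P i ≠ 0) → F.IsHomogeneous d →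
  (∀ i, F ∈ mI (P i) ^ (t * (w i + n - 1))) → F ∈ lowI P w (d / t) ^ t

/-- Task T1: reduction modulo `p`. -/
def TaskT1 : Prop := CharPStmt → CharZeroStmt.{u}

/-- Task T2: degree bookkeeping. -/
def TaskT2 : Prop := ∀ (k : Type u) [Field k] (n s t d : ℕ) (P : Fin s → Fin (n + 1) → k)
  (w : Fin s → ℕ) (F : MvPolynomial (Fin (n + 1)) k), 0 < t → (∀ i, P i ≠ 0) →
  F.IsHomogeneous d → F ∈ lowI P w (d / t) ^ t →
  F ∈ irr k n ^ t * (⨅ i : Fin s, linI (P i) ^ w i) ^ t

end Pool.Agent.H737R3.Cont
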